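import Pool.Agent.K9h55.QD.Perm

set_option autoImplicit false
set_option linter.unusedSectionVars false

/-! Assembly: the direct square of a graph given in the coordinates of its Cartesian skeleton. -/

namespace Pool.Agent.K9h55.QD

open Pool.Agent.H741.QS Pool.Agent.H767R3.DS

section

variable {ι : Type} {P : ι → Type}

theorem nbr_of_full {W : Type} {X : SimpleGraph W} (hfull : ∃ i, ∀ a b, Tn X i a b) (a : W) :
    ∃ c, X.Adj a c := by
  obtain ⟨i, hi⟩ := hfull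
  exact Tn_nbr X i a a (hi a a)

theorem R2_twinFree (X : SimpleGraph (∀ i, P i)) (htw : TwinFree X)
    (hnb : ∀ a, ∃ c, X.Adj a c) : TwinFree (R2 X) := by
  intro a b hab
  have key : ∀ c : Bool, (fun i => a (i, c)) = (fun i => b (i, c)) := by
    intro c
    apply htw
    intro z
    cases c
    · constructor
      · intro hz
        obtain ⟨z', hz'⟩ := hnb (fun i => a (i, true))
        have h1 : (R2 X).Adj a (fun k => cond k.2 (z' k.1) (z k.1)) := ⟨hz, hz'⟩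
        exact ((hab _).1 h1).1
      · intro hz
        obtain ⟨z', hz'⟩ := hnb (fun i => b (i, true))
        have h1 : (R2 X).Adj b (fun k => cond k.2 (z' k.1) (z k.1)) := ⟨hz, hz'⟩
        exact ((hab _).2 h1).1
    · constructor
      · intro hz
        obtain ⟨z', hz'⟩ := hnb (fun i => a (i, false))
        have h1 : (R2 X).Adj a (fun k => cond k.2 (z k.1) (z' k.1)) := ⟨hz', hz⟩
        exact ((hab _).1 h1).2
      · intro hz
        obtain ⟨z', hz'⟩ := hnb (fun i => b (i, false))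
        have h1 : (R2 X).Adj b (fun k => cond k.2 (z k.1) (z' k.1)) := ⟨hz', hz⟩
        exact ((hab _).2 h1).2
  funext k
  exact congrFun (key k.2) k.1

theorem Tn_R2 (X : SimpleGraph (∀ i, P i)) (i : ℕ) : ∀ a b : ∀ k : ι × Bool, P k.1,
    Tn X i (fun j => a (j, false)) (fun j => b (j, false)) →
    Tn X i (fun j => a (j, true)) (fun j => b (j, true)) → Tn (R2 X) i a b := by
  induction i with
  | zero => intro a b h1 h2; exact ⟨h1, h2⟩
  | succ i ih =>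
    rintro a b ⟨c, h1, h2⟩ ⟨c', h1', h2'⟩
    exact ⟨fun k => cond k.2 (c' k.1) (c k.1), ih _ _ h1 h1', ih _ _ h2 h2'⟩

/-- an isomorphism with a given underlying equivalence -/
def mkIso {V W : Type} {G : SimpleGraph V} {H : SimpleGraph W} (φ : V ≃ W)
    (h : ∀ a b, H.Adj (φ a) (φ b) ↔ G.Adj a b) : G ≃g H where
  toEquiv := φ
  map_rel_iff' := fun {a b} => h a b

theorem exists_rearr [Fintype ι] [DecidableEq ι] (G : ∀ i, SimpleGraph (P i))
    (X : SimpleGraph (∀ i, P i)) (κ : ι → Bool) (hκ : Spl X.Adj {i | κ i = false}) :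
    ∃ Φ : boxPi (fun k : ι × Bool => G k.1) ≃g (boxPi G □ boxPi G),
      (∀ a b, (R2 X).Adj (Φ.symm a) (Φ.symm b) ↔ (dir X X).Adj a b) ∧
      (∀ a b i, DirAdj (fun k : ι × Bool => G k.1) (i, κ i) (Φ.symm a) (Φ.symm b) ↔
        (DirAdj G i a.1 b.1 ∧ a.2 = b.2)) ∧
      (∀ a b i, DirAdj (fun k : ι × Bool => G k.1) (i, !κ i) (Φ.symm a) (Φ.symm b) ↔
        (DirAdj G i a.2 b.2 ∧ a.1 = b.1)) := by
  have hs := bij_kappa κ
  obtain ⟨Φ, hΦ⟩ := exists_iso_split G (fun i => (i, κ i)) (fun i => (i, !κ i))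
    Function.bijective_id Function.bijective_id hs
  have hΦ1 : ∀ (a : (∀ i, P i) × (∀ i, P i)) i, a.1 i = Φ.symm a (i, κ i) := by
    intro a i
    have h := (hΦ (Φ.symm a) i).1
    rwa [Φ.apply_symm_apply] at h
  have hΦ2 : ∀ (a : (∀ i, P i) × (∀ i, P i)) i, a.2 i = Φ.symm a (i, !κ i) := by
    intro a i
    have h := (hΦ (Φ.symm a) i).2
    rwa [Φ.apply_symm_apply] at h
  have hΦ1' : ∀ (a : (∀ i, P i) × (∀ i, P i)), a.1 = fun j => Φ.symm a (j, κ j) :=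
    fun a => funext (hΦ1 a)
  have hΦ2' : ∀ (a : (∀ i, P i) × (∀ i, P i)), a.2 = fun j => Φ.symm a (j, !κ j) :=
    fun a => funext (hΦ2 a)
  refine ⟨Φ, ?_, ?_, ?_⟩
  · intro a b
    show (R2 X).Adj (Φ.symm a) (Φ.symm b) ↔ (X.Adj a.1 b.1 ∧ X.Adj a.2 b.2)
    rw [t_V ι P X κ hκ (Φ.symm a) (Φ.symm b), ← hΦ1' a, ← hΦ1' b, ← hΦ2' a, ← hΦ2' b]
  · intro a b i
    exact split_core G (fun i => (i, κ i)) (fun i => (i, !κ i)) Function.bijective_id
      Function.bijective_id hs (Φ.symm a) (Φ.symm b) a.1 b.1 a.2 b.2 (hΦ1 a) (hΦ1 b)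
      (hΦ2 a) (hΦ2 b) i
  · intro a b i
    exact split_core G (fun i => (i, !κ i)) (fun i => (i, κ i)) Function.bijective_id
      Function.bijective_id (bij_swap hs) (Φ.symm a) (Φ.symm b) a.2 b.2 a.1 b.1 (hΦ2 a) (hΦ2 b)
      (hΦ1 a) (hΦ1 b) i

end

open Classical in
theorem coords (ι : Type) [Fintype ι] [DecidableEq ι] (P : ι → Type) [∀ i, Fintype (P i)]
    (G : ∀ i, SimpleGraph (P i)) (hG : ∀ i, (G i).Connected) (hP : ∀ i, 2 ≤ Fintype.card (P i))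
    (hprime : ∀ i, PrimeGraph (G i)) (X : SimpleGraph (∀ i, P i)) (htw : TwinFree X)
    (hfull : ∃ i, ∀ a b, Tn X i a b) (hNQ : NoQuantumSymmetry X) (A : Type) [CStarAlgebra A]
    (u : ((∀ i, P i) × (∀ i, P i)) → ((∀ i, P i) × (∀ i, P i)) → A)
    (h0 : QIso (boxPi G □ boxPi G) (boxPi G □ boxPi G) u) (hdir : QIso (dir X X) (dir X X) u) :
    ∀ x y z w, u x y * u z w = u z w * u x y := by
  intro x0 y0 z0 w0
  obtain ⟨Y1, Y2, Y3, Y4⟩ := t_Y ι P X
  have hX : (boxPi G).Connected := boxPi_connected G hG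
  have hne : Nonempty (∀ i, P i) := hX.nonempty
  have hneX : ∃ a b, X.Adj a b := ⟨hne.some, nbr_of_full hfull _⟩
  have Y5 := Y4 hneX
  obtain ⟨Ψ0, hΨR, -, -⟩ := exists_rearr G X (fun _ => false) (by
    have : {i : ι | (fun _ => false : ι → Bool) i = false} = Set.univ := by ext i; simp
    rw [this]; exact Y1)
  obtain ⟨u1, hu1e⟩ : ∃ u1 : (∀ k : ι × Bool, P k.1) → (∀ k : ι × Bool, P k.1) → A,
      u1 = fun z w => u (Ψ0 z) (Ψ0 w) := ⟨_, rfl⟩
  have hq1 : QIso (boxPi (fun k : ι × Bool => G k.1)) (boxPi (fun k : ι × Bool => G k.1)) u1 := by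
    rw [hu1e]; exact h0.transport Ψ0 Ψ0
  have hR1 : QIso (R2 X) (R2 X) u1 := by
    let φ : R2 X ≃g dir X X := mkIso Ψ0.toEquiv (by
      intro a b
      rw [← hΨR]
      show (R2 X).Adj (Ψ0.symm (Ψ0 a)) (Ψ0.symm (Ψ0 b)) ↔ _
      rw [Ψ0.symm_apply_apply, Ψ0.symm_apply_apply])
    rw [hu1e]; exact hdir.transport φ φ
  obtain ⟨𝓑, h𝓑⟩ : ∃ 𝓑 : Set (Set ι), 𝓑 = {C | Spl X.Adj C} := ⟨_, rfl⟩
  have hmem : ∀ C, C ∈ 𝓑 ↔ Spl X.Adj C := fun C => by rw [h𝓑]; rfl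
  let q : ι → Quotient (Zaux.rel 𝓑) := Quotient.mk (Zaux.rel 𝓑)
  have hq : ∀ i j, q i = q j ↔ (∀ C ∈ 𝓑, i ∈ C ↔ j ∈ C) := by
    intro i j
    exact Quotient.eq (r := Zaux.rel 𝓑)
  have hsat : ∀ K : Set ι, (∀ i j, q i = q j → i ∈ K → j ∈ K) → Spl X.Adj K := by
    intro K hK
    rw [← hmem]
    refine Zaux.mem_of_sat 𝓑 ((hmem _).2 Y1) (fun C hC => (hmem _).2 (Y2 C ((hmem _).1 hC)))
      (fun C hC D hD => (hmem _).2 (Y3 C D ((hmem _).1 hC) ((hmem _).1 hD))) K ?_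
    intro i j hij
    exact hK i j ((hq i j).2 hij)
  let blk : ι × Bool → Quotient (Zaux.rel 𝓑) × Bool := fun k => (q k.1, k.2)
  have hsurj : Function.Surjective blk := by
    rintro ⟨l, c⟩
    obtain ⟨i, rfl⟩ := Quotient.exists_rep l
    exact ⟨(i, c), rfl⟩
  have hblk : ∀ C : Set (ι × Bool), Spl (R2 X).Adj C ↔ ∃ D, C = blk ⁻¹' D := by
    intro C
    rw [Y5 C]
    constructor
    · rintro ⟨h1, h2⟩
      refine ⟨{l | ∃ k, blk k = l ∧ k ∈ C}, ?_⟩
      ext k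
      constructor
      · intro hk
        exact ⟨k, rfl, hk⟩
      · rintro ⟨k', hk', hC⟩
        have e1 : q k'.1 = q k.1 := congrArg Prod.fst hk'
        have e2 : (blk k').2 = (blk k).2 := congrArg Prod.snd hk'
        have e3 := (hq _ _).1 e1
        obtain ⟨i, c⟩ := k
        obtain ⟨i', c'⟩ := k'
        have e2' : c' = c := e2
        subst e2'
        cases c'
        · exact (e3 _ ((hmem _).2 h1)).1 hC
        · exact (e3 _ ((hmem _).2 h2)).1 hC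
    · rintro ⟨D, rfl⟩
      constructor
      · apply hsat
        intro i j hij hi
        show (q j, false) ∈ D
        rw [← hij]
        exact hi
      · apply hsat
        intro i j hij hi
        show (q j, true) ∈ D
        rw [← hij]
        exact hi
  have hfull2 : ∃ i, ∀ a b, Tn (R2 X) i a b := by
    obtain ⟨i, hi⟩ := hfull
    exact ⟨i, fun a b => Tn_R2 X i a b (hi _ _) (hi _ _)⟩
  by_contra hno
  have hx : u x0 y0 * u z0 w0 - u z0 w0 * u x0 y0 ≠ 0 := sub_ne_zero.2 hno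
  obtain ⟨e, σ, he1, he2, he3, he5, hbij, hσ⟩ := exists_perm (fun k : ι × Bool => G k.1)
    (fun k => hG k.1) (fun k => hP k.1) (fun k => hprime k.1)
    (fun x hx => CStarRing.star_mul_self_eq_zero_iff x |>.1 hx) u1 hq1 (R2 X) hR1
    (R2_twinFree X htw (nbr_of_full hfull)) hfull2 blk hsurj hblk _ hx
  obtain ⟨κ0, κ0', -, -, hk1, hk2, -, -⟩ := t_Z (Quotient (Zaux.rel 𝓑))
    (Equiv.ofBijective σ hbij) Set.univ trivial (fun _ _ => trivial) (fun _ _ _ _ => trivial)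
    (fun _ _ _ => ⟨trivial, trivial⟩)
  have hk1' : ∀ l, (σ (l, κ0 l)).2 = κ0' (σ (l, κ0 l)).1 := hk1
  have hk2' : ∀ l, (σ (l, !κ0 l)).2 = !κ0' (σ (l, !κ0 l)).1 := hk2
  obtain ⟨Φ, hΦR, hΦ1, hΦ2⟩ := exists_rearr G X (fun i => κ0 (q i)) (by
    apply hsat
    intro i j hij hi
    show κ0 (q j) = false
    rw [← hij]
    exact hi)
  obtain ⟨Ψ, hΨR', hΨ1, hΨ2⟩ := exists_rearr G X (fun i => κ0' (q i)) (by
    apply hsat
    intro i j hij hi
    show κ0' (q j) = false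
    rw [← hij]
    exact hi)
  have hut := hq1.transport Φ.symm Ψ.symm
  have hdt : QIso (dir X X) (dir X X) (fun a w => u1 (Φ.symm a) (Ψ.symm w)) := by
    let φ : dir X X ≃g R2 X := mkIso Φ.symm.toEquiv (fun a b => hΦR a b)
    let ψ : dir X X ≃g R2 X := mkIso Ψ.symm.toEquiv (fun a b => hΨR' a b)
    exact hR1.transport φ ψ
  have hend := t_F (∀ i, P i) X (boxPi G) hX hneX hNQ A (fun a w => u1 (Φ.symm a) (Ψ.symm w)) hut
    hdt e he1 he2
    (fun a w => he3 _ _) (by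
      intro a b w v hab1 hab2 hwv
      obtain ⟨i0, hi0⟩ := hab1
      refine hσ (i0, κ0 (q i0)) _ _ _ _ ((hΦ1 a b i0).2 ⟨hi0, hab2⟩) ?_
      rintro ⟨⟨j, c⟩, hj, hd⟩
      have e1 : q j = (σ (q i0, κ0 (q i0))).1 := congrArg Prod.fst hj
      have e2 : c = (σ (q i0, κ0 (q i0))).2 := congrArg Prod.snd hj
      have e3 : c = κ0' (q j) := by rw [e1, e2, hk1']
      subst e3
      obtain ⟨d1, d2⟩ := (hΨ1 w v j).1 hd
      exact hwv ⟨⟨_, d1⟩, d2⟩) (by
      intro a b w v hab1 hab2 hwv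
      obtain ⟨i0, hi0⟩ := hab2
      refine hσ (i0, !κ0 (q i0)) _ _ _ _ ((hΦ2 a b i0).2 ⟨hi0, hab1⟩) ?_
      rintro ⟨⟨j, c⟩, hj, hd⟩
      have e1 : q j = (σ (q i0, !κ0 (q i0))).1 := congrArg Prod.fst hj
      have e2 : c = (σ (q i0, !κ0 (q i0))).2 := congrArg Prod.snd hj
      have e3 : c = !κ0' (q j) := by rw [e1, e2, hk2']
      subst e3
      obtain ⟨d1, d2⟩ := (hΨ2 w v j).1 hd
      exact hwv ⟨d2, ⟨_, d1⟩⟩)
  have hut' : ∀ a w, u a w = u1 (Φ.symm (Φ (Ψ0.symm a))) (Ψ.symm (Ψ (Ψ0.symm w))) := by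
    intro a w
    rw [Φ.symm_apply_apply, Ψ.symm_apply_apply, hu1e]
    simp only [Ψ0.apply_symm_apply]
  apply he5
  rw [mul_sub, sub_eq_zero, hut' x0 y0, hut' z0 w0]
  exact hend _ _ _ _

end Pool.Agent.K9h55.QD
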