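import Pool.Agent.K9h55.QD.Goodness

set_option autoImplicit false
set_option linter.unusedSectionVars false

/-! Splittings of a Cartesian product along a set of coordinates and the central
projections attached to blocks of coordinates. -/

namespace Pool.Agent.K9h55.QD

open Pool.Agent.H741.QS Pool.Agent.H767R3.DS

section

variable {J : Type} [Fintype J] [DecidableEq J] {P : J → Type} [∀ k, Fintype (P k)]

/-- the coordinates satisfying `p` -/
def res (P : J → Type) (p : J → Prop) (w : ∀ k, P k) : ∀ k : {k // p k}, P k.1 := fun k => w k.1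

open Classical in
theorem split_set (G : ∀ k, SimpleGraph (P k)) (hG : ∀ k, (G k).Connected) (p : J → Prop) :
    Split (boxPi G) (boxPi fun k : {k // p k} => G k.1) (boxPi fun k : {k // ¬ p k} => G k.1)
      (res P p) (res P fun k => ¬ p k) where
  inj w v h1 h2 := by
    funext k
    by_cases hk : p k
    · exact congrFun h1 ⟨k, hk⟩
    · exact congrFun h2 ⟨k, hk⟩
  surj x y := by
    refine ⟨fun k => if h : p k then x ⟨k, h⟩ else y ⟨k, h⟩, ?_, ?_⟩
    · funext k
      simp [res, k.2]
    · funext k
      simp [res, k.2]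
  adj w v := by
    constructor
    · rintro ⟨i, hi, hne⟩
      by_cases hil : p i
      · left
        refine ⟨⟨⟨i, hil⟩, hi, ?_⟩, ?_⟩
        · intro j hj
          exact hne j.1 fun h => hj (Subtype.ext h)
        · funext k
          exact hne k.1 fun h => k.2 (by rw [h]; exact hil)
      · right
        refine ⟨?_, ⟨⟨i, hil⟩, hi, ?_⟩⟩
        · funext k
          exact hne k.1 fun h => hil (by rw [← h]; exact k.2)
        · intro j hj
          exact hne j.1 fun h => hj (Subtype.ext h)
    · rintro (⟨⟨i, hi, hne⟩, h2⟩ | ⟨h1, ⟨i, hi, hne⟩⟩)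
      · refine ⟨i.1, hi, fun j hj => ?_⟩
        by_cases hjl : p j
        · exact hne ⟨j, hjl⟩ fun h => hj (congrArg Subtype.val h)
        · exact congrFun h2 ⟨j, hjl⟩
      · refine ⟨i.1, hi, fun j hj => ?_⟩
        by_cases hjl : p j
        · exact congrFun h1 ⟨j, hjl⟩
        · exact hne ⟨j, hjl⟩ fun h => hj (congrArg Subtype.val h)
  dist w v := by
    rw [boxPi_dist G hG, boxPi_dist _ (fun k : {k // p k} => hG k.1),
      boxPi_dist _ (fun k : {k // ¬ p k} => hG k.1)]
    exact (Fintype.sum_subtype_add_sum_subtype p (fun i => (G i).dist (w i) (v i))).symm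
  conn := boxPi_connected G hG

theorem dir1_set_iff (G : ∀ k, SimpleGraph (P k)) (p : J → Prop) (w v : ∀ k, P k) :
    Dir1 (boxPi G) (res P fun k => ¬ p k) w v ↔ ∃ k, p k ∧ DirAdj G k w v := by
  constructor
  · rintro ⟨⟨i, hi, hne⟩, h2⟩
    have hil : p i := by
      by_contra hil
      have : w i = v i := congrFun h2 ⟨i, hil⟩
      rw [this] at hi
      exact hi.ne rfl
    exact ⟨i, hil, hi, hne⟩
  · rintro ⟨i, hil, hi, hne⟩
    exact ⟨⟨i, hi, hne⟩, funext fun k => hne k.1 fun h => k.2 (by rw [h]; exact hil)⟩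

open Classical in
theorem splT_of_spl {R : (∀ k, P k) → (∀ k, P k) → Prop} (p : J → Prop)
    (h : Spl R {k | p k}) : SplT (res P p) (res P fun k => ¬ p k) R := by
  intro a b a' b' c d h1 h2 e1 e2 e3 e4
  have hc : c = mix {k | p k} a a' := by
    funext k
    unfold mix
    by_cases hk : p k
    · rw [if_pos (show k ∈ {k | p k} from hk)]
      exact congrFun e1 ⟨k, hk⟩
    · rw [if_neg (show ¬ k ∈ {k | p k} from hk)]
      exact congrFun e2 ⟨k, hk⟩
  have hd : d = mix {k | p k} b b' := by
    funext k
    unfold mix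
    by_cases hk : p k
    · rw [if_pos (show k ∈ {k | p k} from hk)]
      exact congrFun e3 ⟨k, hk⟩
    · rw [if_neg (show ¬ k ∈ {k | p k} from hk)]
      exact congrFun e4 ⟨k, hk⟩
  rw [hc, hd]
  exact h a b a' b' h1 h2

variable {A : Type} [Ring A] [StarRing A] [Algebra ℝ A] [StarModule ℝ A]

theorem EE_constS (G : ∀ k, SimpleGraph (P k)) (hG : ∀ k, (G k).Connected)
    (hprime : ∀ k, PrimeGraph (G k)) (hB : ∀ x : A, star x * x = 0 → x = 0)
    (u : (∀ k, P k) → (∀ k, P k) → A) (h : QIso (boxPi G) (boxPi G) u)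
    {W1 W2 : Type} {Y1 : SimpleGraph W1} {Y2 : SimpleGraph W2} {p1 : (∀ k, P k) → W1}
    {p2 : (∀ k, P k) → W2} (hs : Split (boxPi G) Y1 Y2 p1 p2)
    (hgood : ∀ {a b : ∀ k, P k}, (boxPi G).Adj a b → Good (boxPi G) p1 p2 u a b) (k : J)
    {a b c d : ∀ k, P k} (hab : DirAdj G k a b) (hcd : DirAdj G k c d) :
    EE (Dir1 (boxPi G) p2) u c d = EE (Dir1 (boxPi G) p2) u a b := by
  refine par_lift G hG (fun i S hS h1 a b hab => par_irred (G i) (hG i) (hprime i) S hS h1 a b hab)
    (fun c d => EE (Dir1 (boxPi G) p2) u c d = EE (Dir1 (boxPi G) p2) u a b)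
    ?_ k a b c d hab hcd rfl
  constructor
  · intro x y hxy h1
    rw [← h1]
    exact (EE_flip h hs hxy (hgood hxy)).symm
  · intro x y z hxy hxz hyz hn h1
    rw [← h1]
    exact (EE_loc h hs hxy hxz hyz hn).symm
  · intro x y z t hd h1
    rw [← h1]
    exact (EE_sq h hs hd (hgood hd.adj1.symm) (hgood hd.adj4)).symm
  · intro x y z t s hd1 hd2 hz h1
    rw [← h1]
    exact (EE_tw h (boxPi_connected G hG) hs hB hd1 hd2 hz).symm

theorem exists_centralS {L : Type} [Fintype L] (G : ∀ k, SimpleGraph (P k))
    (hG : ∀ k, (G k).Connected) (hP : ∀ k, 2 ≤ Fintype.card (P k))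
    (hprime : ∀ k, PrimeGraph (G k)) (hB : ∀ x : A, star x * x = 0 → x = 0)
    (u : (∀ k, P k) → (∀ k, P k) → A) (h : QIso (boxPi G) (boxPi G) u) (blk : J → L)
    (hgood : ∀ (l : L) {a b : ∀ k, P k}, (boxPi G).Adj a b →
      Good (boxPi G) (res P fun k => blk k = l) (res P fun k => ¬ blk k = l) u a b) :
    ∃ E : J → L → A, (∀ k l, star (E k l) = E k l) ∧ (∀ k l, E k l * E k l = E k l) ∧
      (∀ k l k' l', E k l * E k' l' = E k' l' * E k l) ∧ (∀ k, ∑ l, E k l = 1) ∧
      (∀ k l a w, E k l * u a w = u a w * E k l) ∧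
      (∀ k l a b w v, DirAdj G k a b → ¬ (∃ j, blk j = l ∧ DirAdj G j w v) →
        u a w * u b v * E k l = 0) := by
  classical
  have hconn := boxPi_connected G hG
  obtain ⟨o⟩ := hconn.nonempty
  choose b hb using fun k => exists_nbr G hG hP k o
  have hs := fun l => split_set G hG (fun k => blk k = l)
  have hadj : ∀ {k} {a b : ∀ k, P k}, DirAdj G k a b → (boxPi G).Adj a b :=
    fun {k} {a b} h => ⟨k, h.1, h.2⟩
  obtain ⟨D, hD⟩ : ∃ D : L → (∀ k, P k) → (∀ k, P k) → Prop,
    D = fun l => Dir1 (boxPi G) (res P fun k => ¬ blk k = l) := ⟨_, rfl⟩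
  have hconst : ∀ k l {a c : ∀ k, P k}, DirAdj G k a c →
      EE (D l) u a c = EE (D l) u o (b k) := by
    intro k l a c hac
    rw [hD]
    exact EE_constS G hG hprime hB u h (hs l) (hgood l) k (hb k) hac
  have hcu : ∀ k l a w, EE (D l) u o (b k) * u a w = u a w * EE (D l) u o (b k) := by
    intro k l a w
    obtain ⟨c, hc⟩ := exists_nbr G hG hP k a
    rw [← hconst k l hc, hD]
    exact (EE_props h (hs l) (hadj hc) (hgood l (hadj hc))).2.2.1 w
  refine ⟨fun k l => EE (D l) u o (b k), ?_, ?_, ?_, ?_, ?_, ?_⟩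
  · intro k l
    rw [hD]
    exact (EE_props h (hs l) (hadj (hb k)) (hgood l (hadj (hb k)))).1
  · intro k l
    rw [hD]
    exact (EE_props h (hs l) (hadj (hb k)) (hgood l (hadj (hb k)))).2.1
  · intro k l k' l'
    have h1 : ∀ w v, EE (D l) u o (b k) * (u o w * u (b k') v) =
        (u o w * u (b k') v) * EE (D l) u o (b k) := by
      intro w v
      rw [← mul_assoc, hcu, mul_assoc, hcu, mul_assoc]
    show EE (D l) u o (b k) * EE (D l') u o (b k') =
      EE (D l') u o (b k') * EE (D l) u o (b k)
    have e2 : EE (D l') u o (b k') = ∑ w, ∑ v,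
      if D l' w v then u o w * u (b k') v else 0 := rfl
    rw [e2, Finset.mul_sum, Finset.sum_mul]
    refine Finset.sum_congr rfl fun w _ => ?_
    rw [Finset.mul_sum, Finset.sum_mul]
    refine Finset.sum_congr rfl fun v _ => ?_
    split_ifs
    · exact h1 w v
    · simp
  · intro k
    have hx : ∀ w v, ∑ l, (if D l w v then u o w * u (b k) v else 0) =
        u o w * u (b k) v := by
      intro w v
      by_cases hwv : (boxPi G).Adj w v
      · obtain ⟨i, hi, hne⟩ := hwv
        rw [Finset.sum_eq_single (blk i)]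
        · rw [if_pos]
          rw [hD]
          exact (dir1_set_iff G (fun k => blk k = blk i) w v).2 ⟨i, rfl, hi, hne⟩
        · intro l _ hl
          rw [if_neg]
          rw [hD]
          intro hdir
          obtain ⟨j, hj, h1, h2⟩ := (dir1_set_iff G (fun k => blk k = l) w v).1 hdir
          have hij : i ≠ j := by
            rintro rfl
            exact hl hj.symm
          have h3 := h2 i hij
          rw [h3] at hi
          exact hi.ne rfl
        · intro hi'; exact absurd (Finset.mem_univ _) hi'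
      · have h0 : u o w * u (b k) v = 0 :=
          h.adj _ _ _ _ fun h' => hwv (h'.1 (hadj (hb k)))
        rw [h0]
        simp
    calc ∑ l, EE (D l) u o (b k)
        = ∑ l, ∑ w, ∑ v, (if D l w v then u o w * u (b k) v else 0) := rfl
      _ = ∑ w, ∑ v, ∑ l, (if D l w v then u o w * u (b k) v else 0) := by
          rw [Finset.sum_comm]
          refine Finset.sum_congr rfl fun w _ => ?_
          rw [Finset.sum_comm]
      _ = ∑ w, ∑ v, u o w * u (b k) v := by
          refine Finset.sum_congr rfl fun w _ => Finset.sum_congr rfl fun v _ => hx w v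
      _ = 1 := by
          simp only [← Finset.mul_sum, h.rowSum, mul_one]
  · intro k l a w
    exact hcu k l a w
  · intro k l a c w v hac hn
    show u a w * u c v * EE (D l) u o (b k) = 0
    rw [mul_assoc, ← hcu, ← mul_assoc, ← hconst k l hac, EE_sandwich h, if_neg]
    rw [hD]
    intro hdir
    exact hn ((dir1_set_iff G (fun k => blk k = l) w v).1 hdir)

end

/-- a pure central projection that does not kill `x` -/
theorem exists_pureS {J L : Type} [Fintype J] [DecidableEq J] [Fintype L] {A : Type} [Ring A]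
    [StarRing A] (f0 : J → L)
    (E : J → L → A) (h1 : ∀ k l, star (E k l) = E k l) (h2 : ∀ k l, E k l * E k l = E k l)
    (h3 : ∀ k l k' l', E k l * E k' l' = E k' l' * E k l) (h4 : ∀ k, ∑ l, E k l = 1)
    (U : Set A) (h5 : ∀ k l, ∀ y ∈ U, E k l * y = y * E k l) (x : A) (hx : x ≠ 0) :
    ∃ (e : A) (σ : J → L), star e = e ∧ e * e = e ∧ (∀ y ∈ U, e * y = y * e) ∧
      (∀ k, e * E k (σ k) = e) ∧ e * x ≠ 0 := by
  have key : ∀ K : Finset J, ∃ (e : A) (σ : J → L), star e = e ∧ e * e = e ∧
      (∀ y ∈ U, e * y = y * e) ∧ (∀ k l, e * E k l = E k l * e) ∧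
      (∀ k ∈ K, e * E k (σ k) = e) ∧ e * x ≠ 0 := by
    intro K
    induction K using Finset.induction_on with
    | empty =>
      refine ⟨1, f0, star_one A, one_mul 1, fun y _ => by rw [one_mul, mul_one],
        fun k l => by rw [one_mul, mul_one], fun k hk => absurd hk (Finset.notMem_empty k), ?_⟩
      rwa [one_mul]
    | insert k K hk ih =>
      obtain ⟨e, σ, he1, he2, he3, he4, he5, he6⟩ := ih
      have hs : ∑ l, e * E k l * x = e * x := by
        rw [← Finset.sum_mul, ← Finset.mul_sum, h4, mul_one]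
      have hne : ∑ l, e * E k l * x ≠ 0 := by rw [hs]; exact he6
      obtain ⟨l, -, hl⟩ := Finset.exists_ne_zero_of_sum_ne_zero hne
      refine ⟨e * E k l, Function.update σ k l, ?_, ?_, ?_, ?_, ?_, hl⟩
      · rw [star_mul, h1, he1, he4]
      · calc e * E k l * (e * E k l) = e * (E k l * e) * E k l := by simp only [mul_assoc]
          _ = e * (e * E k l) * E k l := by rw [he4]
          _ = (e * e) * (E k l * E k l) := by simp only [mul_assoc]
          _ = e * E k l := by rw [he2, h2]
      · intro y hy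
        calc e * E k l * y = e * (E k l * y) := mul_assoc _ _ _
          _ = e * (y * E k l) := by rw [h5 k l y hy]
          _ = (e * y) * E k l := (mul_assoc _ _ _).symm
          _ = (y * e) * E k l := by rw [he3 y hy]
          _ = y * (e * E k l) := mul_assoc _ _ _
      · intro k' l'
        calc e * E k l * E k' l' = e * (E k l * E k' l') := mul_assoc _ _ _
          _ = e * (E k' l' * E k l) := by rw [h3]
          _ = (e * E k' l') * E k l := (mul_assoc _ _ _).symm
          _ = (E k' l' * e) * E k l := by rw [he4]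
          _ = E k' l' * (e * E k l) := mul_assoc _ _ _
      · intro k' hk'
        by_cases hkk : k' = k
        · subst hkk
          rw [Function.update_self, mul_assoc, h2]
        · have hK : k' ∈ K := by
            rcases Finset.mem_insert.1 hk' with h | h
            · exact absurd h hkk
            · exact h
          rw [Function.update_of_ne hkk]
          calc e * E k l * E k' (σ k') = e * (E k l * E k' (σ k')) := mul_assoc _ _ _
            _ = e * (E k' (σ k') * E k l) := by rw [h3]
            _ = (e * E k' (σ k')) * E k l := (mul_assoc _ _ _).symm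
            _ = e * E k l := by rw [he5 k' hK]
  obtain ⟨e, σ, he1, he2, he3, -, he5, he6⟩ := key Finset.univ
  exact ⟨e, σ, he1, he2, he3, fun k => he5 k (Finset.mem_univ k), he6⟩

end Pool.Agent.K9h55.QD
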