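import Pool.Agent.K9h55.QD.Assemble

set_option autoImplicit false
set_option linter.unusedSectionVars false
set_option linter.unusedVariables false

/-! The direct square of an arbitrary finite graph. -/

namespace Pool.Agent.K9h55.QD

open Pool.Agent.H741.QS Pool.Agent.H767R3.DS

theorem exists_auxS (n : ℕ) : ∀ {V : Type} [Fintype V] (X : SimpleGraph V),
    Fintype.card V = n → X.Connected →
    ∃ (ι : Type) (_ : Fintype ι) (_ : DecidableEq ι) (P : ι → Type) (_ : ∀ i, Fintype (P i))
      (G : ∀ i, SimpleGraph (P i)),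
      (∀ i, (G i).Connected ∧ 2 ≤ Fintype.card (P i) ∧ PrimeGraph (G i)) ∧
      Nonempty (X ≃g boxPi G) := by
  induction n using Nat.strong_induction_on with
  | _ n ih =>
    intro V _ X hcard hX
    by_cases h2 : 2 ≤ Fintype.card V
    · by_cases hp : PrimeGraph X
      · refine ⟨Unit, inferInstance, inferInstance, fun _ => V, fun _ => inferInstance, fun _ => X,
          fun _ => ⟨hX, h2, hp⟩, ⟨⟨(Equiv.funUnique Unit V).symm, ?_⟩⟩⟩
        intro a b
        rw [boxPi_adj]
        constructor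
        · rintro ⟨_, h, _⟩; exact h
        · intro h; exact ⟨(), h, fun j hj => absurd rfl hj⟩
      · unfold PrimeGraph at hp
        push Not at hp
        obtain ⟨V1, V2, f1, f2, G1, G2, c1, c2, he⟩ := hp
        obtain ⟨e⟩ := he
        have hc : Fintype.card V = Fintype.card V1 * Fintype.card V2 := by
          rw [Fintype.card_congr e.toEquiv, Fintype.card_prod]
        have hcon : (G1 □ G2).Connected := (e.connected_iff).mp hX
        obtain ⟨hc1, hc2⟩ := SimpleGraph.connected_boxProd.mp hcon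
        obtain ⟨ι₁, i1, i2, P₁, i3, H₁, p1, ⟨q1⟩⟩ := ih (Fintype.card V1) (by nlinarith) G1 rfl hc1
        obtain ⟨ι₂, j1, j2, P₂, j3, H₂, p2, ⟨q2⟩⟩ := ih (Fintype.card V2) (by nlinarith) G2 rfl hc2
        refine ⟨ι₁ ⊕ ι₂, inferInstance, inferInstance, Sum.elim P₁ P₂,
          fun i => match i with
            | Sum.inl a => i3 a
            | Sum.inr b => j3 b,
          sumFam H₁ H₂, ?_, ⟨e.trans ((prodCongr q1 q2).trans (sumIso H₁ H₂))⟩⟩
        rintro (a | b)
        · exact p1 a
        · exact p2 b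
    · have hne : Nonempty V := hX.nonempty
      have hle : Fintype.card V ≤ 1 := by omega
      have hss : Subsingleton V := Fintype.card_le_one_iff_subsingleton.mp hle
      obtain ⟨v⟩ := hne
      refine ⟨Empty, inferInstance, inferInstance, fun _ => Unit, fun _ => inferInstance, fun _ => ⊤,
        fun i => i.elim, ⟨⟨⟨fun _ i => i.elim, fun _ => v, fun a => Subsingleton.elim _ _,
          fun f => by funext i; exact i.elim⟩, ?_⟩⟩⟩
      intro a b
      rw [boxPi_adj]
      constructor
      · rintro ⟨i, _⟩; exact i.elim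
      · intro h
        exact absurd (Subsingleton.elim a b) h.ne

/-- walks of length `2 ^ i` -/
theorem Tn_of_walk {W : Type} (X : SimpleGraph W) (i : ℕ) : ∀ a b : W,
    (∃ w : X.Walk a b, w.length = 2 ^ i) → Tn X i a b := by
  induction i with
  | zero =>
    rintro a b ⟨w, hw⟩
    exact SimpleGraph.Walk.adj_of_length_eq_one (by simpa using hw)
  | succ i ih =>
    rintro a b ⟨w, hw⟩
    refine ⟨w.getVert (2 ^ i), ih _ _ ⟨w.take (2 ^ i), ?_⟩, ih _ _ ⟨w.drop (2 ^ i), ?_⟩⟩
    · rw [SimpleGraph.Walk.take_length, hw, pow_succ]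
      omega
    · rw [SimpleGraph.Walk.drop_length, hw, pow_succ]
      omega

theorem full_of {V : Type} [Fintype V] (X : SimpleGraph V) (hc : X.Connected)
    (hcol : ¬ X.Colorable 2) : ∃ i, ∀ a b, Tn X i a b := by
  classical
  rw [SimpleGraph.two_colorable_iff_forall_loop_even] at hcol
  push Not at hcol
  obtain ⟨u, w0, hw0⟩ := hcol
  choose n0 hn0 using fun x : V × V => Aaux.all_long hc w0 hw0 x.1 x.2
  refine ⟨Finset.univ.sup n0, fun a b => Tn_of_walk X _ a b ?_⟩
  refine hn0 (a, b) _ ?_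
  exact (Finset.le_sup (f := n0) (Finset.mem_univ (a, b))).trans Nat.lt_two_pow_self.le

theorem Tn_iso {V V' : Type} {X : SimpleGraph V} {X' : SimpleGraph V'} (f : X' ≃g X) (i : ℕ) :
    ∀ a b, Tn X i (f a) (f b) → Tn X' i a b := by
  induction i with
  | zero => intro a b h; exact f.map_adj_iff.1 h
  | succ i ih =>
    rintro a b ⟨c, h1, h2⟩
    obtain ⟨c', rfl⟩ := f.surjective c
    exact ⟨c', ih _ _ h1, ih _ _ h2⟩

theorem assemblyS (V : Type) [Fintype V] [Nonempty V] (X S : SimpleGraph V)
    (hS : S.Connected) (htw : TwinFree X) (hfull : ∃ i, ∀ a b, Tn X i a b)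
    (hq : NoQuantumSymmetry X)
    (A : Type) [CStarAlgebra A] (u : (V × V) → (V × V) → A)
    (h1 : QIso (S □ S) (S □ S) u) (h2 : QIso (dir X X) (dir X X) u) :
    ∀ x y z w, u x y * u z w = u z w * u x y := by
  classical
  obtain ⟨ι, i1, i2, P, i3, G, hG, ⟨e⟩⟩ := exists_auxS _ S rfl hS
  let X' : SimpleGraph (∀ i, P i) := X.comap e.symm
  let f : X' ≃g X :=
    { toEquiv := e.symm.toEquiv
      map_rel_iff' := by
        intro a b
        rfl }
  have hX' : NoQuantumSymmetry X' := noqs_of_iso f.symm hq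
  have k1 := h1.transport (prodCongr e.symm e.symm) (prodCongr e.symm e.symm)
  have k2 := h2.transport (dirCongr f f) (dirCongr f f)
  have hfe : ∀ a : (∀ i, P i) × (∀ i, P i), dirCongr f f a = prodCongr e.symm e.symm a :=
    fun a => rfl
  have htw' : TwinFree X' := by
    intro x y hxy
    apply f.injective
    apply htw
    intro z
    obtain ⟨z', rfl⟩ := f.surjective z
    rw [f.map_adj_iff, f.map_adj_iff]
    exact hxy z'
  have hfull' : ∃ i, ∀ a b, Tn X' i a b := by
    obtain ⟨i, hi⟩ := hfull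
    exact ⟨i, fun a b => Tn_iso f i a b (hi _ _)⟩
  have k3 := coords ι P G (fun i => (hG i).1) (fun i => (hG i).2.1) (fun i => (hG i).2.2)
    X' htw' hfull' hX' A
    (fun a w => u (prodCongr e.symm e.symm a) (prodCongr e.symm e.symm w)) k1 k2
  intro x y z w
  have k4 := k3 (prodCongr e e x) (prodCongr e e y) (prodCongr e e z) (prodCongr e e w)
  have hinv : ∀ a : V × V, prodCongr e.symm e.symm (prodCongr e e a) = a := by
    rintro ⟨a, b⟩
    show (e.symm (e a), e.symm (e b)) = (a, b)
    rw [e.symm_apply_apply, e.symm_apply_apply]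
  simpa only [hinv] using k4

open Classical in
theorem sufficient (V : Type) [Fintype V] (X : SimpleGraph V) (h1 : X.Connected)
    (hcol : ¬ X.Colorable 2) (ht : TwinFree X) (hq : NoQuantumSymmetry X) :
    NoQuantumSymmetry (dir X X) := by
  intro A _ u hu hc x y z w
  have hne : Nonempty V := h1.nonempty
  have h0 := qiso_of_magic (dir X X) u hu (by convert hc)
  obtain ⟨m, hm⟩ := t_A V X h1 hcol
  have hker := t_B V X h1 ht m hm
  obtain ⟨N, hN⟩ : ∃ N : V → V → ℝ, N = (fun a b => (X.adjMatrix ℝ ^ (2 * m)) a b /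
      Real.sqrt ((X.adjMatrix ℝ ^ (2 * m)) a a * (X.adjMatrix ℝ ^ (2 * m)) b b)) := ⟨_, rfl⟩
  rw [← hN] at hker
  have hpos : ∀ a, 0 < (X.adjMatrix ℝ ^ (2 * m)) a a := by
    intro a
    have h := hker.pos a a
    rw [hN] at h
    simp only at h
    by_contra hle
    push Not at hle
    have : (X.adjMatrix ℝ ^ (2 * m)) a a /
        Real.sqrt ((X.adjMatrix ℝ ^ (2 * m)) a a * (X.adjMatrix ℝ ^ (2 * m)) a a) ≤ 0 :=
      div_nonpos_of_nonpos_of_nonneg hle (Real.sqrt_nonneg _)
    linarith
  have hP := ker_pres X N (fun a b => u a b) h0 (fun a b => (X.adjMatrix ℝ ^ (2 * m)) a b) hpos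
    (fun a b => by rw [hN]) (t_J V X A (fun a b => u a b) h0 (2 * m))
  obtain ⟨hk2, hS⟩ := t_E V N hker
  have hQ := t_L t_D (V × V) (dir X X) (kk N) A (fun a b => u a b) h0 hk2 hP
  rw [hS] at hQ
  exact assemblyS V X (SG N) (t_C V N hker) ht (full_of X h1 hcol) hq A (fun a b => u a b) hQ h0
    x y z w

/-- the full determination -/
theorem direct_square (V : Type) [Fintype V] [Nonempty V] (X : SimpleGraph V) :
    NoQuantumSymmetry (dir X X) ↔ (Fintype.card V = 1 ∨
      (X.Connected ∧ ¬ X.Colorable 2 ∧ TwinFree X ∧ NoQuantumSymmetry X)) := by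
  constructor
  · exact necAll V X
  · rintro (h | h)
    · exact one_noqs V X h
    · exact sufficient V X h.1 h.2.1 h.2.2.1 h.2.2.2

end Pool.Agent.K9h55.QD
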