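import Pool.Agent.Helper741.QSym.Final
import Pool.Agent.H767R3.DS.All3

set_option autoImplicit false
set_option linter.unusedSectionVars false

/-! All edges are good with respect to a splitting that is respected by a second,
twin-free and primitive, relation. -/

namespace Pool.Agent.K9h55.QD

open Pool.Agent.H741.QS Pool.Agent.H767R3.DS

/-- joined by a walk of length exactly `2 ^ i` -/
def Tn {W : Type} (R : SimpleGraph W) : ℕ → W → W → Prop
  | 0 => R.Adj
  | i + 1 => fun a b => ∃ c, Tn R i a c ∧ Tn R i c b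

theorem Tn_symm {W : Type} (R : SimpleGraph W) : ∀ (i : ℕ) (a b : W), Tn R i a b → Tn R i b a := by
  intro i
  induction i with
  | zero => intro a b h; exact SimpleGraph.Adj.symm h
  | succ i ih =>
    rintro a b ⟨c, h1, h2⟩
    exact ⟨c, ih c b h2, ih a c h1⟩

theorem Tn_nbr {W : Type} (R : SimpleGraph W) : ∀ (i : ℕ) (a b : W), Tn R i a b →
    ∃ c, R.Adj a c := by
  intro i
  induction i with
  | zero => intro a b h; exact ⟨b, h⟩
  | succ i ih =>
    rintro a b ⟨c, h1, -⟩
    exact ih a c h1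

theorem Tn_refl {W : Type} (R : SimpleGraph W) (h : ∀ a, ∃ c, R.Adj a c) :
    ∀ (i : ℕ) (a : W), Tn R (i + 1) a a := by
  intro i
  induction i with
  | zero => intro a; obtain ⟨c, hc⟩ := h a; exact ⟨c, hc, hc.symm⟩
  | succ i ih => intro a; exact ⟨a, ih a, ih a⟩

open Classical in
/-- indicator -/
noncomputable def ind {W : Type} (T : W → W → Prop) : W → W → ℝ :=
  fun a b => if T a b then 1 else 0

open Classical in
theorem ind_mul_pos {W : Type} [Fintype W] (T : W → W → Prop) (a b : W) :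
    0 < ∑ c, ind T a c * ind T c b ↔ ∃ c, T a c ∧ T c b := by
  have h0 : ∀ c ∈ (Finset.univ : Finset W), 0 ≤ ind T a c * ind T c b := by
    intro c _
    unfold ind
    split_ifs <;> norm_num
  rw [Finset.sum_pos_iff_of_nonneg h0]
  constructor
  · rintro ⟨c, -, hc⟩
    refine ⟨c, ?_, ?_⟩
    · by_contra h
      unfold ind at hc
      rw [if_neg h, zero_mul] at hc
      exact lt_irrefl _ hc
    · by_contra h
      unfold ind at hc
      rw [if_neg h, mul_zero] at hc
      exact lt_irrefl _ hc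
  · rintro ⟨c, h1, h2⟩
    refine ⟨c, Finset.mem_univ c, ?_⟩
    unfold ind
    rw [if_pos h1, if_pos h2]
    norm_num

section

variable {V W W1 W2 : Type} [Fintype V] [Fintype W]
variable {B : Type} [Ring B] [StarRing B] [Algebra ℝ B] [StarModule ℝ B]
variable {G : SimpleGraph V} {H : SimpleGraph W} {u : V → W → B}
variable {Y1 : SimpleGraph W1} {Y2 : SimpleGraph W2} {p1 : W → W1} {p2 : W → W2}

open Classical in
theorem Tn_pres {R' : SimpleGraph V} {R : SimpleGraph W} (h : QIso R' R u) (i : ℕ) :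
    QIso.Pres u (ind (Tn R' i)) (ind (Tn R i)) := by
  induction i with
  | zero => exact h.pres_adj
  | succ i ih =>
    have h1 := (QIso.Pres.mul h ih ih).comp (fun t => if 0 < t then 1 else 0)
    intro a b w v hne
    apply h1 a b w v
    intro heq
    apply hne
    simp only [ind_mul_pos] at heq
    have e1 : ∀ {U : Type} (Q : SimpleGraph U) (x y : U), ind (Tn Q (i + 1)) x y =
        if ∃ c, Tn Q i x c ∧ Tn Q i c y then (1 : ℝ) else 0 := by
      intro U Q x y
      rfl
    rw [e1, e1]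
    convert heq

/-- the four point relation -/
theorem four (h : QIso G H u) (hs : Split H Y1 Y2 p1 p2) {a b : V} (hab : G.Adj a b)
    {w v w' x : W} (hwv : H.Adj w v) (h2 : p2 w = p2 v) (hvw' : H.Adj v w') (h1 : p1 v = p1 w')
    (hx1 : p1 x = p1 w) (hx2 : p2 x = p2 w')
    {M : V → V → ℝ} {N : W → W → ℝ} (hMN : QIso.Pres u M N) (r : W) :
    ((N w r - N w' r) * (N v r - N x r)) • (u a w * u b v * u a w') = 0 := by
  classical
  have n1 : p1 w ≠ p1 w' := by
    intro h'
    exact hwv.ne (hs.inj _ _ (h'.trans h1.symm) h2)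
  have n2 : p2 w ≠ p2 w' := by
    intro h'
    exact hvw'.ne (hs.inj _ _ h1 (h2.symm.trans h'))
  have hvx : v ≠ x := by
    rintro rfl
    exact n1 (hx1.symm.trans h1)
  have hww' : w ≠ w' := by
    rintro rfl
    exact n1 rfl
  have hterm : ∀ t, t ≠ v ∧ t ≠ x → u a w * u b t * u a w' = 0 := by
    rintro t ⟨htv, htx⟩
    by_cases e1 : H.Adj w t
    · by_cases e2 : H.Adj t w'
      · exfalso
        rcases hs.common_nbr n1 n2 e1 e2.symm with ⟨h3, h4⟩ | ⟨h3, h4⟩
        · exact htx (hs.inj _ _ (h3.trans hx1.symm) (h4.trans hx2.symm))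
        · exact htv (hs.inj _ _ (h3.trans h1.symm) (h4.trans h2))
      · have : u b t * u a w' = 0 := h.adj _ _ _ _ fun h' => e2 (h'.1 hab.symm)
        rw [mul_assoc, this, mul_zero]
    · have : u a w * u b t = 0 := h.adj _ _ _ _ fun h' => e1 (h'.1 hab)
      rw [this, zero_mul]
  have hneg : u a w * u b x * u a w' = - (u a w * u b v * u a w') := by
    have e1 : ∑ t, u a w * u b t * u a w' = 0 := by
      rw [← Finset.sum_mul, ← Finset.mul_sum, h.rowSum, mul_one, h.rowOrth a w w' hww']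
    rw [Fintype.sum_eq_add v x hvx hterm] at e1
    exact (neg_eq_of_add_eq_zero_right e1).symm
  obtain ⟨F, hF⟩ : ∃ F : W → ℝ, F = fun y => N y r := ⟨_, rfl⟩
  have hsum : u a w * al u F b * u a w' = (F v - F x) • (u a w * u b v * u a w') := by
    unfold al
    rw [Finset.mul_sum, Finset.sum_mul]
    have e1 : ∀ t, u a w * F t • u b t * u a w' = F t • (u a w * u b t * u a w') := by
      intro t
      rw [mul_smul_comm, smul_mul_assoc]
    simp only [e1]
    rw [Fintype.sum_eq_add v x hvx (fun t ht => by rw [hterm t ht, smul_zero]), hneg, smul_neg,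
      sub_smul, sub_eq_add_neg]
  have hal : ∀ c, al u F c = al (fun w a => u a w) (M c) r := by
    intro c
    have := (h.pres_iff M N).1 hMN c r
    rw [hF]
    exact this.symm
  have hcomm : al u F a * al u F b = al u F b * al u F a := by
    rw [hal, hal]
    exact h.transpose.al_comm (M a) (M b) r
  have e1 : u a w * (al u F a * al u F b) * u a w' =
      F w • ((F v - F x) • (u a w * u b v * u a w')) := by
    rw [← hsum, ← mul_assoc, h.u_mul_al, smul_mul_assoc, smul_mul_assoc]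
  have e2 : u a w * (al u F b * al u F a) * u a w' =
      F w' • ((F v - F x) • (u a w * u b v * u a w')) := by
    rw [← hsum, mul_assoc, mul_assoc (al u F b), h.al_mul_u, mul_smul_comm, mul_smul_comm,
      mul_assoc]
  rw [hcomm, e2] at e1
  have e3 : ((F w - F w') * (F v - F x)) • (u a w * u b v * u a w') = 0 := by
    rw [mul_smul, sub_smul, ← e1, sub_self]
  rw [hF] at e3
  exact e3

/-- `T` splits along `p1`, `p2` -/
def SplT (p1 : W → W1) (p2 : W → W2) (T : W → W → Prop) : Prop :=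
  ∀ a b a' b' c d, T a b → T a' b' → p1 c = p1 a → p2 c = p2 a' → p1 d = p1 b → p2 d = p2 b' →
    T c d

theorem SplT.symm {T : W → W → Prop} (h : SplT p1 p2 T) : SplT p2 p1 T :=
  fun a b a' b' c d h1 h2 e1 e2 e3 e4 => h a' b' a b c d h2 h1 e2 e1 e4 e3

theorem SplT.Tn (hs : Split H Y1 Y2 p1 p2) {R : SimpleGraph W} (h : SplT p1 p2 R.Adj) (i : ℕ) :
    SplT p1 p2 (Tn R i) := by
  induction i with
  | zero => exact h
  | succ i ih =>
    rintro a b a' b' c d ⟨m, h1, h2⟩ ⟨m', h1', h2'⟩ e1 e2 e3 e4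
    obtain ⟨m'', hm1, hm2⟩ := hs.surj (p1 m) (p2 m')
    exact ⟨m'', ih a m a' m' c m'' h1 h1' e1 e2 hm1 hm2, ih m b m' b' m'' d h2 h2' hm1 hm2 e3 e4⟩

theorem comb (hs : Split H Y1 Y2 p1 p2) {T : W → W → Prop} (hT : SplT p1 p2 T) {w v w' x : W}
    (h2 : p2 w = p2 v) (h1 : p1 v = p1 w') (hx1 : p1 x = p1 w) (hx2 : p2 x = p2 w')
    (hall : ∀ r, (T w r ↔ T w' r) ∨ (T v r ↔ T x r)) (hd : ∃ r, ¬ (T w r ↔ T v r)) :
    ¬ ∃ r, T v r ∧ T w' r := by
  rintro ⟨r2, g1, g2⟩
  obtain ⟨r1, hr1⟩ := hd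
  obtain ⟨r, k1, k2⟩ := hs.surj (p1 r1) (p2 r2)
  by_cases hc : T w r1
  · have hv : ¬ T v r1 := fun h' => hr1 ⟨fun _ => h', fun _ => hc⟩
    have f1 : T w r := hT w r1 v r2 w r hc g1 rfl h2 k1 k2
    have f2 : T x r := hT w r1 w' r2 x r hc g2 hx1 hx2 k1 k2
    have f3 : ¬ T v r := fun h' => hv (hT v r w r1 v r1 h' hc rfl h2.symm k1.symm rfl)
    have f4 : ¬ T w' r := fun h' => hv (hT w' r w r1 v r1 h' hc h1 h2.symm k1.symm rfl)
    rcases hall r with h' | h'
    · exact f4 (h'.1 f1)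
    · exact f3 (h'.2 f2)
  · have hv : T v r1 := by
      by_contra h'
      exact hr1 ⟨fun h => absurd h hc, fun h => absurd h h'⟩
    have f1 : T v r := hT v r1 v r2 v r hv g1 rfl rfl k1 k2
    have f2 : T w' r := hT v r1 w' r2 w' r hv g2 h1.symm rfl k1 k2
    have f3 : ¬ T w r := fun h' => hc (hT w r v r1 w r1 h' hv rfl h2 k1.symm rfl)
    have f4 : ¬ T x r := fun h' => hc (hT x r v r1 w r1 h' hv hx1.symm h2 k1.symm rfl)
    rcases hall r with h' | h'
    · exact f3 (h'.2 f2)
    · exact f4 (h'.1 f1)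

open Classical in
/-- every edge is good -/
theorem all_goodS (h : QIso G H u) (hs : Split H Y1 Y2 p1 p2) {R' : SimpleGraph V}
    {R : SimpleGraph W} (hR : QIso R' R u) (hspl : SplT p1 p2 R.Adj) (htw : TwinFree R)
    (hfull : ∃ i, ∀ a b, Tn R i a b) {a b : V} (hab : G.Adj a b) : Good H p1 p2 u a b := by
  intro w v w' hwv h2 hvw' h1
  by_contra hΩ
  obtain ⟨x, hx1, hx2⟩ := hs.surj (p1 w) (p2 w')
  have key : ∀ i r, (Tn R i w r ↔ Tn R i w' r) ∨ (Tn R i v r ↔ Tn R i x r) := by
    intro i r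
    have e1 := four h hs hab hwv h2 hvw' h1 hx1 hx2 (Tn_pres hR i) r
    rw [smul_eq_zero] at e1
    have e2 := e1.resolve_right hΩ
    rw [mul_eq_zero] at e2
    unfold ind at e2
    rcases e2 with e2 | e2
    · left
      by_cases c1 : Tn R i w r <;> by_cases c2 : Tn R i w' r <;> simp_all
    · right
      by_cases c1 : Tn R i v r <;> by_cases c2 : Tn R i x r <;> simp_all
  have hnb : ∀ a, ∃ c, R.Adj a c := by
    intro a
    obtain ⟨i, hi⟩ := hfull
    exact Tn_nbr R i a a (hi a a)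
  have stepT : ∀ i, (∃ r, ¬ (Tn R i w r ↔ Tn R i v r)) → (∃ r, ¬ (Tn R i w' r ↔ Tn R i v r)) →
      ¬ Tn R (i + 1) v w' ∧ ¬ Tn R (i + 1) w v := by
    intro i d1 d2
    have c1 := comb hs (SplT.Tn hs hspl i) h2 h1 hx1 hx2 (key i) d1
    have c2 := comb hs.symm (SplT.Tn hs hspl i).symm h1.symm h2.symm hx2 hx1
      (fun r => (key i r).imp Iff.symm id) d2
    constructor
    · rintro ⟨c, m1, m2⟩
      exact c1 ⟨c, m1, Tn_symm R i _ _ m2⟩
    · rintro ⟨c, m1, m2⟩
      exact c2 ⟨c, Tn_symm R i _ _ m2, m1⟩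
  have hmain : ∀ i, ¬ Tn R (i + 1) v w' ∧ ¬ Tn R (i + 1) w v := by
    intro i
    induction i with
    | zero =>
      apply stepT
      · by_contra hno
        push Not at hno
        exact hwv.ne (htw w v hno)
      · by_contra hno
        push Not at hno
        exact hvw'.ne (htw w' v hno).symm
    | succ i ih =>
      apply stepT
      · exact ⟨w, fun h' => ih.2 (Tn_symm R (i + 1) _ _ (h'.1 (Tn_refl R hnb i w)))⟩
      · exact ⟨v, fun h' => ih.1 (Tn_symm R (i + 1) _ _ (h'.2 (Tn_refl R hnb i v)))⟩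
  obtain ⟨i, hi⟩ := hfull
  cases i with
  | zero => exact R.loopless.irrefl w (hi w w)
  | succ i => exact (hmain i).1 (hi v w')

end

end Pool.Agent.K9h55.QD
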