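import Pool.Agent.K9h55.QD.Blocks

set_option autoImplicit false
set_option linter.unusedSectionVars false

/-! The permutation of the blocks of coordinates attached to a pure central projection. -/

namespace Pool.Agent.K9h55.QD

open Pool.Agent.H741.QS Pool.Agent.H767R3.DS

section path

variable {J : Type} [DecidableEq J] {P : J → Type} {G : ∀ k, SimpleGraph (P k)}

theorem walk_oneS (hG : ∀ k, (G k).Connected) (S : J → Prop) (j : J) (hj : S j) (a : ∀ k, P k)
    (y : P j) :
    Relation.ReflTransGen (fun x z : ∀ k, P k => ∃ j, S j ∧ DirAdj G j x z) a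
      (Function.update a j y) := by
  obtain ⟨p⟩ := (hG j).preconnected (a j) y
  have key : ∀ (s t : P j), (G j).Walk s t →
      Relation.ReflTransGen (fun x z : ∀ k, P k => ∃ j, S j ∧ DirAdj G j x z)
        (Function.update a j s) (Function.update a j t) := by
    intro s t p
    induction p with
    | nil => exact Relation.ReflTransGen.refl
    | cons h _ ih =>
      refine Relation.ReflTransGen.head ?_ ih
      refine ⟨j, hj, ?_, ?_⟩
      · simpa using h
      · intro l hl
        rw [Function.update_of_ne hl, Function.update_of_ne hl]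
  have h := key (a j) y p
  rwa [Function.update_eq_self] at h

theorem path_allS (hG : ∀ k, (G k).Connected) (S : J → Prop) (F : Finset J)
    (hF : ∀ j ∈ F, S j) : ∀ a b : ∀ k, P k, (∀ j, j ∉ F → a j = b j) →
      Relation.ReflTransGen (fun x z : ∀ k, P k => ∃ j, S j ∧ DirAdj G j x z) a b := by
  induction F using Finset.induction_on with
  | empty =>
    intro a b h
    have : a = b := funext fun j => h j (Finset.notMem_empty j)
    rw [this]
  | insert j F _ ih =>
    intro a b h
    refine (walk_oneS hG S j (hF j (Finset.mem_insert_self _ _)) a (b j)).trans ?_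
    refine ih (fun i hi => hF i (Finset.mem_insert_of_mem hi)) _ _ fun l hl => ?_
    by_cases hlj : l = j
    · subst hlj
      simp
    · rw [Function.update_of_ne hlj]
      exact h l (by simp [hlj, hl])

end path

section

variable {J : Type} [Fintype J] [DecidableEq J] {P : J → Type} [∀ k, Fintype (P k)]
variable {A : Type} [Ring A] [StarRing A] [Algebra ℝ A] [StarModule ℝ A]

open Classical in
/-- coordinates in `C` of the image only depend on the coordinates in `T` of the argument -/
theorem starS (G : ∀ k, SimpleGraph (P k)) (hG : ∀ k, (G k).Connected)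
    (u : (∀ k, P k) → (∀ k, P k) → A) (h : QIso (boxPi G) (boxPi G) u) (e : A)
    (hec : ∀ a w, e * u a w = u a w * e) (T C : J → Prop)
    (hdir : ∀ k, ¬ T k → ∀ a b w v, DirAdj G k a b → ¬ (∃ l, ¬ C l ∧ DirAdj G l w v) →
      u a w * u b v * e = 0) (x z w v : ∀ k, P k) (hxz : ∀ k, T k → x k = z k)
    (hne : u x w * u z v * e ≠ 0) : ∀ l, C l → w l = v l := by
  have key : ∀ x z : (∀ k, P k),
      Relation.ReflTransGen (fun x z : ∀ k, P k => ∃ j, ¬ T j ∧ DirAdj G j x z) x z →
      ∀ w v, u x w * u z v * e ≠ 0 → ∀ l, C l → w l = v l := by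
    intro x z hxz
    induction hxz with
    | refl =>
      intro w v hne l hl
      by_contra hn
      apply hne
      rw [h.rowOrth x w v (fun h' => hn (by rw [h'])), zero_mul]
    | @tail c z hxc hcz ih =>
      intro w v hne l hl
      have h1 : u x w * u z v * e = ∑ y, u x w * u c y * u z v * e := by
        rw [← Finset.sum_mul, ← Finset.sum_mul, ← Finset.mul_sum, h.rowSum, mul_one]
      rw [h1] at hne
      obtain ⟨y, -, hy⟩ := Finset.exists_ne_zero_of_sum_ne_zero hne
      have h3 : u x w * u c y * e ≠ 0 := by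
        intro h0
        apply hy
        rw [mul_assoc, ← hec, ← mul_assoc, h0, zero_mul]
      have h4 : u c y * u z v * e ≠ 0 := by
        intro h0
        apply hy
        rw [mul_assoc (u x w), mul_assoc (u x w), h0, mul_zero]
      obtain ⟨j, hj, hcz'⟩ := hcz
      have h5 : ∃ l, ¬ C l ∧ DirAdj G l y v := by
        by_contra hno
        exact h4 (hdir j hj c z y v hcz' hno)
      obtain ⟨l', hl', hd⟩ := h5
      have h6 : y l = v l := hd.2 l fun h' => hl' (by rw [← h']; exact hl)
      rw [ih w y h3 l hl, h6]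
  refine key x z (path_allS hG (fun j => ¬ T j) (Finset.univ.filter fun j => ¬ T j) (by simp)
    x z ?_) w v hne
  intro j hj
  exact hxz j (by simpa using hj)

open Classical in
/-- splittings are pulled back -/
theorem splPull (G : ∀ k, SimpleGraph (P k)) (hG : ∀ k, (G k).Connected)
    (u : (∀ k, P k) → (∀ k, P k) → A) (H : SimpleGraph (∀ k, P k))
    (hq : QIso (boxPi G) (boxPi G) u) (hH : QIso H H u) (e : A) (he0 : e ≠ 0) (hee : e * e = e)
    (hec : ∀ a w, e * u a w = u a w * e) (T C : Set J)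
    (hdir1 : ∀ k, k ∈ T → ∀ a b w v, DirAdj G k a b → ¬ (∃ l, l ∈ C ∧ DirAdj G l w v) →
      u a w * u b v * e = 0)
    (hdir2 : ∀ k, k ∉ T → ∀ a b w v, DirAdj G k a b → ¬ (∃ l, l ∉ C ∧ DirAdj G l w v) →
      u a w * u b v * e = 0)
    (hC : Spl H.Adj C) : Spl H.Adj T := by
  intro a b a' b' hab hab'
  set U : (∀ k, P k) → (∀ k, P k) → A := fun x y => u x y * e with hU
  have hUdef : ∀ x y, U x y = u x y * e := fun x y => rfl
  have hmul : ∀ x y z w, U x y * U z w = u x y * u z w * e := by
    intro x y z w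
    rw [hUdef, hUdef, mul_assoc, ← mul_assoc e, hec, mul_assoc (u z w), hee, ← mul_assoc]
  have hid : ∀ x w, U x w * U x w = U x w := by
    intro x w
    rw [hmul, hq.idem]
  have hrow : ∀ x w w', w ≠ w' → U x w * U x w' = 0 := by
    intro x w w' h
    rw [hmul, hq.rowOrth x w w' h, zero_mul]
  have hsum : ∀ x, ∑ w, U x w = e := by
    intro x
    simp only [hUdef]
    rw [← Finset.sum_mul, hq.rowSum, one_mul]
  have he1 : ∀ x w, U x w * e = U x w := by
    intro x w
    rw [hUdef, mul_assoc, hee]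
  have he2 : ∀ x w, e * U x w = U x w := by
    intro x w
    rw [hUdef, ← mul_assoc, hec, mul_assoc, hee]
  have hne : ∀ x y z w, U x y * U z w ≠ 0 → u x y * u z w ≠ 0 := by
    intro x y z w h h0
    exact h (by rw [hmul, h0, zero_mul])
  have hHadj : ∀ x y z w, U x y * U z w ≠ 0 → (H.Adj x z ↔ H.Adj y w) := by
    intro x y z w h
    by_contra hn
    exact hne x y z w h (hH.adj x z y w hn)
  have hstar1 : ∀ (x z w v : ∀ k, P k), (∀ k, k ∈ T → x k = z k) → U x w * U z v ≠ 0 →
      ∀ l, l ∈ C → w l = v l := by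
    intro x z w v hxz hn
    rw [hmul] at hn
    exact starS G hG u hq e hec (fun k => k ∈ T) (fun k => k ∈ C) hdir2 x z w v hxz hn
  have hstar2 : ∀ (x z w v : ∀ k, P k), (∀ k, k ∉ T → x k = z k) → U x w * U z v ≠ 0 →
      ∀ l, l ∉ C → w l = v l := by
    intro x z w v hxz hn
    rw [hmul] at hn
    refine starS G hG u hq e hec (fun k => k ∉ T) (fun k => k ∉ C) ?_ x z w v hxz hn
    intro k hk a b w v hab hno
    refine hdir1 k (not_not.1 hk) a b w v hab ?_
    rintro ⟨l, hl, hd⟩
    exact hno ⟨l, not_not.2 hl, hd⟩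
  -- the elements p D x w
  set F : Set J → (∀ k, P k) → Finset (∀ k, P k) := fun D w =>
    Finset.univ.filter (fun x => ∀ l ∈ D, x l = w l) with hF
  have hFmem : ∀ D w x, x ∈ F D w ↔ ∀ l ∈ D, x l = w l := by
    intro D w x
    simp [hF]
  set p : Set J → (∀ k, P k) → (∀ k, P k) → A := fun D x w => ∑ y ∈ F D w, U x y with hp
  have hpw : ∀ D x w w', (∀ l ∈ D, w l = w' l) → p D x w = p D x w' := by
    intro D x w w' h
    have : F D w = F D w' := by
      ext y
      rw [hFmem, hFmem]
      exact ⟨fun h' l hl => (h' l hl).trans (h l hl), fun h' l hl => (h' l hl).trans (h l hl).symm⟩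
    show ∑ y ∈ F D w, U x y = ∑ y ∈ F D w', U x y
    rw [this]
  have hpx1 : ∀ x z w, (∀ k, k ∈ T → x k = z k) → p C x w = p C z w := by
    intro x z w h
    refine Uaux.sumEq hsum he1 he2 x z (F C w) ?_ ?_
    · intro y hy v hv
      rw [hFmem] at hy hv
      push Not at hv
      obtain ⟨l, hl, hvl⟩ := hv
      by_contra hn
      have h1 := hstar1 x z y v h hn l hl
      exact hvl (by rw [← h1, hy _ hl])
    · intro y hy v hv
      rw [hFmem] at hy hv
      push Not at hy
      obtain ⟨l, hl, hvl⟩ := hy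
      by_contra hn
      have h1 := hstar1 x z y v h hn l hl
      exact hvl (by rw [h1, hv _ hl])
  have hpx2 : ∀ x z w, (∀ k, k ∉ T → x k = z k) → p Cᶜ x w = p Cᶜ z w := by
    intro x z w h
    refine Uaux.sumEq hsum he1 he2 x z (F Cᶜ w) ?_ ?_
    · intro y hy v hv
      rw [hFmem] at hy hv
      push Not at hv
      obtain ⟨l, hl, hvl⟩ := hv
      by_contra hn
      have h1 := hstar2 x z y v h hn l hl
      exact hvl (by rw [← h1, hy _ hl])
    · intro y hy v hv
      rw [hFmem] at hy hv
      push Not at hy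
      obtain ⟨l, hl, hvl⟩ := hy
      by_contra hn
      have h1 := hstar2 x z y v h hn l hl
      exact hvl (by rw [h1, hv _ hl])
  have hpp : ∀ x w, p C x w * p Cᶜ x w = U x w := by
    intro x w
    show (∑ y ∈ F C w, U x y) * (∑ y ∈ F Cᶜ w, U x y) = U x w
    rw [Uaux.mulAB hid hrow]
    have : F C w ∩ F Cᶜ w = {w} := by
      ext y
      rw [Finset.mem_inter, hFmem, hFmem, Finset.mem_singleton]
      constructor
      · rintro ⟨h1, h2⟩
        funext l
        by_cases hl : l ∈ C
        · exact h1 l hl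
        · exact h2 l hl
      · rintro rfl
        exact ⟨fun _ _ => rfl, fun _ _ => rfl⟩
    rw [this, Finset.sum_singleton]
  have hcomm : ∀ x w z v, p C x w * p Cᶜ z v = p Cᶜ z v * p C x w := by
    intro x w z v
    have h1 : p C x w = p C (mix T x z) w := by
      refine hpx1 _ _ w fun k hk => ?_
      unfold mix
      rw [if_pos hk]
    have h2 : p Cᶜ z v = p Cᶜ (mix T x z) v := by
      refine hpx2 _ _ v fun k hk => ?_
      unfold mix
      rw [if_neg hk]
    rw [h1, h2]
    exact Uaux.commAB hid hrow _ _ _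
  have hmix : ∀ x w z v, p C x w * p Cᶜ z v = U (mix T x z) (mix C w v) := by
    intro x w z v
    have h1 : p C x w = p C (mix T x z) (mix C w v) := by
      rw [hpw C x w (mix C w v) (fun l hl => by unfold mix; rw [if_pos hl])]
      refine hpx1 _ _ _ fun k hk => ?_
      unfold mix
      rw [if_pos hk]
    have h2 : p Cᶜ z v = p Cᶜ (mix T x z) (mix C w v) := by
      rw [hpw Cᶜ z v (mix C w v) (fun l hl => by unfold mix; rw [if_neg hl])]
      refine hpx2 _ _ _ fun k hk => ?_
      unfold mix
      rw [if_neg hk]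
    rw [h1, h2]
    exact hpp _ _
  -- a nonzero term
  have hex : ∀ (z : A) (x : ∀ k, P k), z ≠ 0 → z * e = z → ∃ w, z * U x w ≠ 0 := by
    intro z x hz hze
    by_contra hn
    push Not at hn
    apply hz
    rw [← hze, ← hsum x, Finset.mul_sum]
    exact Finset.sum_eq_zero fun w _ => hn w
  obtain ⟨w, hw0⟩ := hex e a he0 hee
  have hw1 : U a w ≠ 0 := by rwa [he2] at hw0
  obtain ⟨v, hv1⟩ := hex (U a w) b hw1 (he1 _ _)
  obtain ⟨w', hw'1⟩ := hex (U a w * U b v) a' hv1 (by rw [mul_assoc, he1])
  obtain ⟨v', hT⟩ := hex (U a w * U b v * U a' w') b' hw'1 (by rw [mul_assoc, he1])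
  have hwv : H.Adj w v := by
    refine (hHadj a w b v ?_).1 hab
    intro h0
    exact hT (by rw [h0, zero_mul, zero_mul])
  have hwv' : H.Adj w' v' := by
    refine (hHadj a' w' b' v' ?_).1 hab'
    intro h0
    exact hT (by rw [mul_assoc, h0, mul_zero])
  have hspl := hC w v w' v' hwv hwv'
  refine (hHadj (mix T a a') (mix C w w') (mix T b b') (mix C v v') ?_).2 hspl
  rw [← hmix, ← hmix]
  intro h0
  apply hT
  have c' : ∀ (x w z v : ∀ k, P k) (y : A), p C x w * (p Cᶜ z v * y) =
      p Cᶜ z v * (p C x w * y) := by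
    intro x w z v y
    rw [← mul_assoc, hcomm, mul_assoc]
  have hT' : U a w * U b v * U a' w' * U b' v' = p Cᶜ a w * p Cᶜ b v *
      (p C a w * p Cᶜ a' w' * (p C b v * p Cᶜ b' v')) * (p C a' w' * p C b' v') := by
    rw [← hpp a w, ← hpp b v, ← hpp a' w', ← hpp b' v']
    simp only [mul_assoc, hcomm, c']
  rw [hT', h0, mul_zero, zero_mul]

open Classical in
/-- a block that is not hit: contradiction -/
theorem hitS (G : ∀ k, SimpleGraph (P k)) (hG : ∀ k, (G k).Connected)
    (hP : ∀ k, 2 ≤ Fintype.card (P k))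
    (u : (∀ k, P k) → (∀ k, P k) → A) (h : QIso (boxPi G) (boxPi G) u) (e : A) (he0 : e ≠ 0)
    (hee : e * e = e) (hec : ∀ a w, e * u a w = u a w * e) (C : J → Prop)
    (hdir : ∀ k, ∀ a b w v, DirAdj G k a b → ¬ (∃ l, ¬ C l ∧ DirAdj G l w v) →
      u a w * u b v * e = 0) (k : J) : ¬ C k := by
  intro hk
  obtain ⟨w⟩ := (boxPi_connected G hG).nonempty
  obtain ⟨v, hv⟩ := exists_nbr G hG hP k w
  have hvk : w k ≠ v k := hv.1.ne
  have hz : ∀ x z, u x w * u z v * e = 0 := by
    intro x z
    by_contra hne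
    exact hvk (starS G hG u h e hec (fun _ => False) C (fun j _ => hdir j) x z w v
      (fun _ h' => h'.elim) hne k hk)
  have h1 : ∀ x, u x w * e = 0 := by
    intro x
    have : u x w * e = ∑ z, u x w * u z v * e := by
      rw [← Finset.sum_mul, ← Finset.mul_sum, h.colSum, mul_one]
    rw [this]
    exact Finset.sum_eq_zero fun z _ => hz x z
  apply he0
  have : e = ∑ x, u x w * e := by rw [← Finset.sum_mul, h.colSum, one_mul]
  rw [this]
  exact Finset.sum_eq_zero fun x _ => h1 x

/-- the main technical statement: a pure central projection permutes the blocks -/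
theorem exists_perm {L : Type} [Fintype L] (G : ∀ k, SimpleGraph (P k))
    (hG : ∀ k, (G k).Connected) (hP : ∀ k, 2 ≤ Fintype.card (P k))
    (hprime : ∀ k, PrimeGraph (G k)) (hB : ∀ x : A, star x * x = 0 → x = 0)
    (u : (∀ k, P k) → (∀ k, P k) → A) (h : QIso (boxPi G) (boxPi G) u)
    (R : SimpleGraph (∀ k, P k)) (hR : QIso R R u) (htw : TwinFree R)
    (hfull : ∃ i, ∀ a b, Tn R i a b) (blk : J → L) (hsurj : Function.Surjective blk)
    (hblk : ∀ C : Set J, Spl R.Adj C ↔ ∃ D : Set L, C = blk ⁻¹' D) (x : A) (hx : x ≠ 0) :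
    ∃ (e : A) (σ : L → L), star e = e ∧ e * e = e ∧ (∀ a w, e * u a w = u a w * e) ∧
      e * x ≠ 0 ∧ Function.Bijective σ ∧
      (∀ k a b w v, DirAdj G k a b → ¬ (∃ j, blk j = σ (blk k) ∧ DirAdj G j w v) →
        u a w * u b v * e = 0) := by
  classical
  obtain ⟨E, e1, e2, e3, e4, e5, e6⟩ := exists_centralS G hG hP hprime hB u h blk
    (fun l {a b} hab => all_goodS h (split_set G hG fun k => blk k = l) hR
      (splT_of_spl (fun k => blk k = l) ((hblk _).2 ⟨{l}, rfl⟩)) htw hfull hab)
  obtain ⟨e, f, he1, he2, he3, he4, he5⟩ := exists_pureS blk E e1 e2 e3 e4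
    (Set.range (fun p : (∀ k, P k) × (∀ k, P k) => u p.1 p.2))
    (by rintro k l _ ⟨p, rfl⟩; exact e5 k l p.1 p.2) x hx
  have he3' : ∀ a w, e * u a w = u a w * e := fun a w => he3 _ ⟨(a, w), rfl⟩
  have he0 : e ≠ 0 := by
    rintro rfl
    exact he5 (zero_mul _)
  have hEe : ∀ k, E k (f k) * e = e := by
    intro k
    have h := congrArg star (he4 k)
    rwa [star_mul, he1, e1] at h
  have hf : ∀ k a b w v, DirAdj G k a b → ¬ (∃ j, blk j = f k ∧ DirAdj G j w v) →
      u a w * u b v * e = 0 := by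
    intro k a b w v hd hn
    rw [← hEe k, ← mul_assoc, e6 k (f k) a b w v hd hn, zero_mul]
  have hpull : ∀ D : Set L, Spl R.Adj (f ⁻¹' D) := by
    intro D
    refine splPull G hG u R h hR e he0 he2 he3' (f ⁻¹' D) (blk ⁻¹' D) ?_ ?_ ((hblk _).2 ⟨D, rfl⟩)
    · intro k hk a b w v hab hno
      refine hf k a b w v hab ?_
      rintro ⟨j, hj, hd⟩
      exact hno ⟨j, by show blk j ∈ D; rw [hj]; exact hk, hd⟩
    · intro k hk a b w v hab hno
      refine hf k a b w v hab ?_
      rintro ⟨j, hj, hd⟩
      exact hno ⟨j, fun hj' => hk (by show f k ∈ D; rw [← hj]; exact hj'), hd⟩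
  have hconst : ∀ k k', blk k = blk k' → f k = f k' := by
    intro k k' hkk
    obtain ⟨D, hD⟩ := (hblk _).1 (hpull {f k})
    have h1 : k ∈ f ⁻¹' {f k} := rfl
    rw [hD] at h1
    have h2 : k' ∈ f ⁻¹' {f k} := by
      rw [hD]
      show blk k' ∈ D
      rw [← hkk]
      exact h1
    exact (show f k' = f k from h2).symm
  obtain ⟨g, hg⟩ : ∃ g : L → J, ∀ l, blk (g l) = l := ⟨fun l => (hsurj l).choose,
    fun l => (hsurj l).choose_spec⟩
  have hσ : ∀ k, f (g (blk k)) = f k := fun k => hconst _ _ (hg _)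
  have hsur : Function.Surjective (fun l => f (g l)) := by
    intro l
    by_contra hno
    have hno' : ∀ k, f k ≠ l := fun k hk => hno ⟨blk k, by
      show f (g (blk k)) = l
      rw [hσ, hk]⟩
    refine hitS G hG hP u h e he0 he2 he3' (fun j => blk j = l) ?_ (g l) (hg l)
    intro k a b w v hab hn
    refine hf k a b w v hab ?_
    rintro ⟨j, hj, hd⟩
    exact hn ⟨j, fun h' => hno' k (by rw [← hj]; exact h'), hd⟩
  refine ⟨e, fun l => f (g l), he1, he2, he3', he5, Finite.surjective_iff_bijective.1 hsur, ?_⟩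
  intro k a b w v hab hn
  refine hf k a b w v hab ?_
  rintro ⟨j, hj, hd⟩
  exact hn ⟨j, by show blk j = f (g (blk k)); rw [hσ]; exact hj, hd⟩

end

end Pool.Agent.K9h55.QD
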